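import Pool.Agent.Q266.RP.Stm2

/-!
# Project RP, job LEI: polynomial sequences form a group (Leibman)
-/

namespace Pool.Agent.Q222.RP

open Pool.Agent.Q266.RP
open scoped commutatorElement

variable {G : Type} [Group G]

theorem PSval {n k : ℕ} {h : ℕ → G} (hh : PS n k h) (a : ℕ) : h a ∈ Fil G k := by
  cases n with
  | zero => exact hh a
  | succ n => exact hh.1 a

theorem PSdown (n : ℕ) : ∀ (k : ℕ) (h : ℕ → G), PS (n + 1) k h → PS n k h := by
  induction n with
  | zero => intro k h hh; exact hh.1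
  | succ n ih => intro k h hh; exact ⟨hh.1, ih _ _ hh.2⟩

theorem PSlev (F3 : ∀ k, Fil G (k + 1) ≤ Fil G k) (n : ℕ) :
    ∀ (k : ℕ) (h : ℕ → G), PS n (k + 1) h → PS n k h := by
  induction n with
  | zero =>
    intro k h hh a
    exact F3 k (hh a)
  | succ n ih =>
    intro k h hh
    exact ⟨fun a => F3 k (hh.1 a), ih _ _ hh.2⟩

theorem PSmono (F3 : ∀ k, Fil G (k + 1) ≤ Fil G k) {n k k' : ℕ} (hk : k ≤ k') {h : ℕ → G}
    (hh : PS n k' h) : PS n k h := by
  induction hk with
  | refl => exact hh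
  | step _ ih => exact ih (PSlev F3 _ _ _ hh)

theorem PScast {n k : ℕ} {h h' : ℕ → G} (hh : PS n k h) (e : h = h') : PS n k h' := e ▸ hh

theorem main (F1 : ∀ i j, ⁅Fil G i, Fil G j⁆ ≤ Fil G (i + j))
    (F3 : ∀ k, Fil G (k + 1) ≤ Fil G k) (n : ℕ) :
    (∀ (k : ℕ) (g h : ℕ → G), PS n k g → PS n k h → PS n k (fun a => g a * h a)) ∧
    (∀ (k : ℕ) (g : ℕ → G), PS n k g → PS n k (fun a => (g a)⁻¹)) ∧
    (∀ (i j : ℕ) (g h : ℕ → G), PS n i g → PS n j h → PS n (i + j) (fun a => ⁅g a, h a⁆)) := by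
  induction n with
  | zero =>
    exact ⟨fun k g h hg hh a => mul_mem (hg a) (hh a), fun k g hg a => inv_mem (hg a),
      fun i j g h hg hh a => F1 i j (Subgroup.commutator_mem_commutator (hg a) (hh a))⟩
  | succ n ih =>
    obtain ⟨ia, ib, ic⟩ := ih
    have conj : ∀ (s : ℕ) (u v : ℕ → G), PS n 0 u → PS n s v →
        PS n s (fun a => u a * v a * (u a)⁻¹) := by
      intro s u v hu hv
      have h1 := ic 0 s u v hu hv
      rw [zero_add] at h1
      refine PScast (ia s _ _ h1 hv) ?_
      funext a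
      simp only [commutatorElement_def]
      group
    refine ⟨?_, ?_, ?_⟩
    · intro k g h hg hh
      refine ⟨fun a => mul_mem (hg.1 a) (hh.1 a), ?_⟩
      have hx := hg.2
      have hy := hh.2
      have hg' := PSdown _ _ _ hg
      have h1 := PSmono F3 (show k + 1 ≤ k + (k + 1) by omega) (ic _ _ _ _ hg' hy)
      refine PScast (ia _ _ _ (ia _ _ _ hx h1) hy) ?_
      funext a
      simp only [commutatorElement_def]
      group
    · intro k g hg
      refine ⟨fun a => inv_mem (hg.1 a), ?_⟩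
      have hx := ib _ _ hg.2
      have hg' := ib _ _ (PSdown _ _ _ hg)
      have h1 := PSmono F3 (show k + 1 ≤ k + (k + 1) by omega) (ic _ _ _ _ hg' hx)
      refine PScast (ia _ _ _ h1 hx) ?_
      funext a
      simp only [commutatorElement_def]
      group
    · intro i j g h hg hh
      refine ⟨fun a => F1 i j (Subgroup.commutator_mem_commutator (hg.1 a) (hh.1 a)), ?_⟩
      have hx := hg.2
      have hy := hh.2
      have hg' := PSdown _ _ _ hg
      have hh' := PSdown _ _ _ hh
      have hc := ic _ _ _ _ hg' hh'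
      have hx0 := PSmono F3 (Nat.zero_le _) hx
      have hy0 := PSmono F3 (Nat.zero_le _) hy
      have hc0 := PSmono F3 (Nat.zero_le _) hc
      have hx1 := PSmono F3 (show 1 ≤ i + 1 by omega) hx
      have hy1 := PSmono F3 (show 1 ≤ j + 1 by omega) hy
      -- the three factors
      have f1 := conj _ _ _ hx0 (PSmono F3 (show i + j + 1 ≤ i + (j + 1) by omega)
        (ic _ _ _ _ hg' hy))
      have f2 := PSmono F3 (show i + j + 1 ≤ 1 + (i + j) by omega)
        (ic _ _ _ _ (ia _ _ _ hx1 hy1) hc)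
      have f3 := PSmono F3 (show i + j + 1 ≤ i + 1 + (j + 1) by omega) (ic _ _ _ _ hx hy)
      have f4 := conj _ _ _ hy0 (PSmono F3 (show i + j + 1 ≤ i + 1 + j by omega)
        (ic _ _ _ _ hx hh'))
      have f5 := conj _ _ _ hc0 (ia _ _ _ f3 f4)
      refine PScast (ia _ _ _ (ia _ _ _ f1 f2) f5) ?_
      funext a
      simp only [commutatorElement_def]
      group

/-- **LEI (Leibman's theorem)** -/
theorem lei : S_FILC → S_LEI := fun hF G _ =>
  ⟨fun r k g h hg hh => (main (hF G).1 (hF G).2.2 r).1 k g h hg hh,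
    fun r k g hg => (main (hF G).1 (hF G).2.2 r).2.1 k g hg⟩

end Pool.Agent.Q222.RP
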